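import Pool.Agent.H97.Tag.Final
import Pool.Agent.W5h69.Tag.Literal

/-!
# The halting problem for binary tag systems is undecidable for every deletion number `ν > 2`
-/

set_option autoImplicit false

namespace Pool.Agent.Results.MP_b40757_lc.BinaryTagHalting

open Relation

/-- One step of the tag system in `T(2, ν)` with rules `0 ↦ w0`, `1 ↦ w1` (`false` is the symbol
`0`, `true` is the symbol `1`).  It acts on a word `S` of length at least `ν`: the production of the
leftmost symbol of `S` is appended to `S`, then the first `ν` symbols are deleted. -/
def Step (ν : ℕ) (w0 w1 S T : List Bool) : Prop :=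
  ν ≤ S.length ∧ ∃ (a : Bool) (t : List Bool),
    S = a :: t ∧ T = (S ++ if a = true then w1 else w0).drop ν

/-- The iteration from `S` stops: it reaches a word shorter than `ν`. -/
def Halts (ν : ℕ) (w0 w1 S : List Bool) : Prop :=
  ∃ T, ReflTransGen (Step ν w0 w1) S T ∧ T.length < ν

/-- The step in the usual convention, which also acts on nonempty words shorter than `ν`. -/
def FreeStep (ν : ℕ) (w0 w1 S T : List Bool) : Prop :=
  ∃ (a : Bool) (t : List Bool), S = a :: t ∧ T = (S ++ if a = true then w1 else w0).drop ν

/-- The iteration of `FreeStep` from `S` reaches the empty word. -/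
def Empties (ν : ℕ) (w0 w1 S : List Bool) : Prop := ReflTransGen (FreeStep ν w0 w1) S []

/-- The literal combination of the two: only words of length at least `ν` are rewritten, and the goal
is the empty word itself. -/
def StrictlyEmpties (ν : ℕ) (w0 w1 S : List Bool) : Prop := ReflTransGen (Step ν w0 w1) S []

theorem rule_eq (w1 : List Bool) (a : Bool) :
    Pool.Agent.H97.Tag.rule w1 a = if a = true then w1 else [false] := by
  cases a <;> rfl

theorem step_eq (ν : ℕ) (w1 : List Bool) :
    Pool.Agent.H97.Tag.TStep ν (Pool.Agent.H97.Tag.rule w1) = Step ν [false] w1 := by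
  funext S T
  unfold Pool.Agent.H97.Tag.TStep Step
  simp only [rule_eq]

theorem free_eq (ν : ℕ) (w1 : List Bool) :
    Pool.Agent.H97.Tag.FStep ν (Pool.Agent.H97.Tag.rule w1) = FreeStep ν [false] w1 := by
  funext S T
  unfold Pool.Agent.H97.Tag.FStep FreeStep
  simp only [rule_eq]

theorem step_literal (ν : ℕ) (w0 w1 : List Bool) :
    Pool.Agent.H97.Tag.TStep ν (fun b => bif b then w1 else w0) = Step ν w0 w1 := by
  funext S T
  unfold Pool.Agent.H97.Tag.TStep Step
  refine propext (and_congr_right fun _ => exists_congr fun a => ?_)
  cases a <;> rfl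

/-- **The halting problem for `T(2, ν)` is undecidable for every `ν > 2`**, in both conventions
(the iteration stops at words shorter than `ν`; or short words are also rewritten and the empty word
has to be reached), even for one fixed tag system with the rule `0 ↦ 0`; while the literal mixture of
the two (short words are not rewritten, yet the empty word has to be reached) is decidable. -/
theorem result (ν : ℕ) (hν : 2 < ν) :
    ¬ ComputablePred (fun q : (List Bool × List Bool) × List Bool =>
      Halts ν q.1.1 q.1.2 q.2) ∧
    ¬ ComputablePred (fun q : (List Bool × List Bool) × List Bool =>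
      Empties ν q.1.1 q.1.2 q.2) ∧
    (∃ w1 : List Bool,
      ¬ ComputablePred (fun S : List Bool => Halts ν [false] w1 S) ∧
      ¬ ComputablePred (fun S : List Bool => Empties ν [false] w1 S)) ∧
    ComputablePred (fun q : (List Bool × List Bool) × List Bool =>
      StrictlyEmpties ν q.1.1 q.1.2 q.2) := by
  obtain ⟨w1, S, q, hS, hq, h1, _, h3, _⟩ := Pool.Agent.H97.Tag.fixed ν hν
  rw [step_eq] at h1
  rw [free_eq] at h3
  have hf : Computable fun n => (([false], w1), S n) := (Computable.const _).pair hS
  exact ⟨Pool.Agent.H97.Tag.not_computable_of hf hq h1,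
    Pool.Agent.H97.Tag.not_computable_of hf hq h3, ⟨w1,
    Pool.Agent.H97.Tag.not_computable_of hS hq h1,
    Pool.Agent.H97.Tag.not_computable_of hS hq h3⟩, by
      simpa only [step_literal, StrictlyEmpties] using
        Pool.Agent.W5h69.Tag.Literal.literal_decidable ν (by omega)⟩

end Pool.Agent.Results.MP_b40757_lc.BinaryTagHalting
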