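import Pool.Agent.H97.Tag.Final

/-!
# The reachability problem for binary tag systems is undecidable for every deletion number `ν > 2`
-/

set_option autoImplicit false

namespace Pool.Agent.Results.MP_b40757_lc.BinaryTagReachability

open Relation

/-- One step of the tag system in `T(2, ν)` with rules `0 ↦ w0`, `1 ↦ w1` (`false` is the symbol
`0`, `true` is the symbol `1`).  It acts on a word `S` of length at least `ν`: the production of the
leftmost symbol of `S` is appended to `S`, then the first `ν` symbols are deleted. -/
def Step (ν : ℕ) (w0 w1 S T : List Bool) : Prop :=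
  ν ≤ S.length ∧ ∃ (a : Bool) (t : List Bool),
    S = a :: t ∧ T = (S ++ if a = true then w1 else w0).drop ν

/-- The iteration from `S` produces the word `T` (after some number of steps, possibly zero). -/
def Reaches (ν : ℕ) (w0 w1 S T : List Bool) : Prop := ReflTransGen (Step ν w0 w1) S T

/-- The variant of the step which also acts on nonempty words shorter than `ν`. -/
def FreeStep (ν : ℕ) (w0 w1 S T : List Bool) : Prop :=
  ∃ (a : Bool) (t : List Bool), S = a :: t ∧ T = (S ++ if a = true then w1 else w0).drop ν

/-- The iteration of `FreeStep` from `S` produces the word `T`. -/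
def FreeReaches (ν : ℕ) (w0 w1 S T : List Bool) : Prop := ReflTransGen (FreeStep ν w0 w1) S T

theorem rule_eq (w1 : List Bool) (a : Bool) :
    Pool.Agent.H97.Tag.rule w1 a = if a = true then w1 else [false] := by
  cases a <;> rfl

theorem step_eq (ν : ℕ) (w1 : List Bool) :
    Pool.Agent.H97.Tag.TStep ν (Pool.Agent.H97.Tag.rule w1) = Step ν [false] w1 := by
  funext S T
  unfold Pool.Agent.H97.Tag.TStep Step
  simp only [rule_eq]

theorem free_eq (ν : ℕ) (w1 : List Bool) :
    Pool.Agent.H97.Tag.FStep ν (Pool.Agent.H97.Tag.rule w1) = FreeStep ν [false] w1 := by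
  funext S T
  unfold Pool.Agent.H97.Tag.FStep FreeStep
  simp only [rule_eq]

/-- **The reachability problem for `T(2, ν)` is undecidable for every `ν > 2`**, even for one fixed
tag system with the rule `0 ↦ 0` and the fixed target word `0 ^ (ν - 1)`; the same holds if words
shorter than `ν` are also rewritten. -/
theorem result (ν : ℕ) (hν : 2 < ν) :
    ¬ ComputablePred (fun q : (List Bool × List Bool) × (List Bool × List Bool) =>
      Reaches ν q.1.1 q.1.2 q.2.1 q.2.2) ∧
    ¬ ComputablePred (fun q : (List Bool × List Bool) × (List Bool × List Bool) =>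
      FreeReaches ν q.1.1 q.1.2 q.2.1 q.2.2) ∧
    ∃ w1 : List Bool,
      ¬ ComputablePred (fun S : List Bool =>
        Reaches ν [false] w1 S (List.replicate (ν - 1) false)) ∧
      ¬ ComputablePred (fun S : List Bool =>
        FreeReaches ν [false] w1 S (List.replicate (ν - 1) false)) := by
  obtain ⟨w1, S, q, hS, hq, _, h2, _, h4⟩ := Pool.Agent.H97.Tag.fixed ν hν
  rw [step_eq] at h2
  rw [free_eq] at h4
  have hf : Computable fun n => (([false], w1), (S n, List.replicate (ν - 1) false)) :=
    (Computable.const _).pair (hS.pair (Computable.const _))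
  exact ⟨Pool.Agent.H97.Tag.not_computable_of hf hq h2,
    Pool.Agent.H97.Tag.not_computable_of hf hq h4, w1,
    Pool.Agent.H97.Tag.not_computable_of hS hq h2,
    Pool.Agent.H97.Tag.not_computable_of hS hq h4⟩

end Pool.Agent.Results.MP_b40757_lc.BinaryTagReachability
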